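import Mathlib
import Pool.Agent.H26.Ultra
import Pool.Agent.H26.Kunen

set_option autoImplicit false

open Set Topology Filter

namespace Pool.Agent.Results.MP_e112c8_lc.Levels

open Pool.Agent.H26.Ultra

/-- The Rudin–Frolík preorder; `u.bind f` is the value at `u` of the continuous extension of `f`:
`A ∈ u.bind f ↔ {i | A ∈ f i} ∈ u`. -/
def LeRF (u v : Ultrafilter ℕ) : Prop :=
  ∃ f : ℕ → Ultrafilter ℕ, Function.Injective f ∧ DiscreteTopology (range f) ∧ v = u.bind f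

def LtRF (u v : Ultrafilter ℕ) : Prop := LeRF u v ∧ ¬ LeRF v u

/-- `wf_α`: members of the well-founded part of rank `α`. -/
def level (α : Ordinal.{0}) : Set (Ultrafilter ℕ) := {u | ∃ h : Acc LtRF u, h.rank = α}

/-- Discretely weak p-points. -/
def DW (u : Ultrafilter ℕ) : Prop := (∀ n, u ≠ pure n) ∧ ∀ D : Set (Ultrafilter ℕ), D.Countable →
  DiscreteTopology D → (∀ w ∈ D, (∀ n, w ≠ pure n) ∧ w ≠ u) → u ∉ closure D

/-- The right-hand side of the formula in Q1. -/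
def gen (α : Ordinal.{0}) : Set (Ultrafilter ℕ) :=
  {w | ∃ (f : ℕ → Ultrafilter ℕ) (u : Ultrafilter ℕ), Function.Injective f ∧
    DiscreteTopology (range f) ∧ u ∈ level α ∧ (∀ i, f i ∈ level α) ∧ w = u.bind f}

lemma disc_rows {f : ℕ → U} {γ : ℕ → ℕ} {A : Set ℕ} (h : ∀ n ∈ A, (f n).map γ = pure n) :
    DiscreteTopology (f '' A) := by
  refine discreteTopology_iff_isOpen_singleton.2 ?_
  rintro ⟨_, n, hn, rfl⟩
  convert (ultrafilter_isOpen_basic {k | γ k = n}).preimage continuous_subtype_val using 1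
  ext ⟨_, m, hm, rfl⟩
  simp only [mem_singleton_iff, Subtype.mk.injEq, mem_preimage, mem_setOf_eq, ← map_pure_iff]
  exact ⟨fun e => e ▸ h n hn, fun e => by rw [Ultrafilter.pure_injective ((h m hm).symm.trans e)]⟩

lemma sd_of {f : ℕ → U} {γ : ℕ → ℕ} (h : ∀ n, (f n).map γ = pure n) :
    Function.Injective f ∧ DiscreteTopology (range f) :=
  ⟨fun a b e => Ultrafilter.pure_injective ((h a).symm.trans (e ▸ h b)),
    image_univ (f := f) ▸ disc_rows fun n _ => h n⟩

lemma rows_of {f : ℕ → U} (hf : Function.Injective f) (hd : DiscreteTopology (range f)) :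
    ∃ γ : ℕ → ℕ, ∀ n, (f n).map γ = pure n := by
  classical
  have : ∀ n, ∃ A : Set ℕ, A ∈ f n ∧ ∀ m, A ∈ f m → m = n := fun n => by
    obtain ⟨V, hV, he⟩ := isOpen_induced_iff.1
      (isOpen_discrete ({⟨f n, n, rfl⟩} : Set (range f)))
    have h1 : ∀ m, f m ∈ V ↔ m = n := fun m => by
      have := Set.ext_iff.1 he ⟨f m, m, rfl⟩
      simpa [hf.eq_iff] using this
    obtain ⟨_, ⟨A, rfl⟩, hA, hAU⟩ :=
      ultrafilterBasis_is_basis.exists_subset_of_mem_open ((h1 n).2 rfl) hV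
    exact ⟨A, hA, fun m hm => (h1 m).1 (hAU hm)⟩
  choose A hA hA' using this
  refine ⟨fun k => if h : ∃ n, k ∈ A n then Nat.find h else 0, fun n => map_pure_iff.2 ?_⟩
  have h1 : (⋂ k ∈ Finset.range n, (A k)ᶜ) ∈ (f n : Filter ℕ) :=
    (biInter_finset_mem _).2 fun k hk => compl fun h =>
      absurd (Finset.mem_range.1 hk) (by rw [hA' k n h]; exact lt_irrefl _)
  refine sup (inter (hA n) h1) fun k hk => ?_
  have h2 : ∃ n, k ∈ A n := ⟨n, hk.1⟩
  simp only [mem_setOf_eq, dif_pos h2, Nat.find_eq_iff]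
  exact ⟨hk.1, fun j hj => mem_iInter₂.1 hk.2 j (Finset.mem_range.2 hj)⟩

lemma le_iff {u v : U} : LeRF u v ↔
    ∃ (f : ℕ → U) (γ : ℕ → ℕ), {n | (f n).map γ = pure n} ∈ u ∧ u.bind f = v := by
  classical
  refine ⟨fun ⟨f, h1, h2, h3⟩ => ?_, fun ⟨f, γ, h1, h2⟩ => ?_⟩
  · obtain ⟨γ, h⟩ := rows_of h1 h2
    exact ⟨f, γ, univ_mem' (f := (u : Filter ℕ)) h, h3.symm⟩
  · obtain ⟨r, hr, hT⟩ : ∃ r < 2, {k | k % 2 ≠ r} ∈ v := by
      by_cases h : {k | k % 2 ≠ 0} ∈ v
      · exact ⟨0, by norm_num, h⟩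
      · exact ⟨1, by norm_num, sup (compl h) fun k hk => by simp at hk ⊢; omega⟩
    have hA := inter h1 (mem_bind.1 (h2 ▸ hT))
    have := sd_of (f := fun n => if (f n).map γ = pure n ∧ {k | k % 2 ≠ r} ∈ f n then f n
      else pure (2 * n + r)) (γ := fun k => if k % 2 ≠ r then γ k else k / 2) fun n => by
        split_ifs with h
        · exact (H26.Ultra.map_congr (g := γ) (sup h.2 fun k hk => if_pos hk)).trans h.1
        · refine map_pure_iff.2 ?_
          have : (2 * n + r) % 2 = r := by omega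
          simp only [Ultrafilter.mem_pure, mem_setOf_eq, this, ne_eq, not_true, if_false]
          omega
    exact ⟨_, this.1, this.2, h2.symm.trans (bind_congr (sup hA fun n hn => (if_pos hn).symm))⟩

lemma bind_rows {t : U} {f : ℕ → U} {γ : ℕ → ℕ} (h : {n | (f n).map γ = pure n} ∈ t) :
    (t.bind f).map γ = t := bind_pure' (c := id) h

lemma le_trans' {r s t : U} (h1 : LeRF r s) (h2 : LeRF s t) : LeRF r t := by
  obtain ⟨f, γ, a1, rfl⟩ := le_iff.1 h1
  obtain ⟨g, δ, a2, rfl⟩ := le_iff.1 h2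
  refine le_iff.2 ⟨fun n => (f n).bind g, γ ∘ δ, sup (inter a1 (mem_bind.1 a2)) fun n hn => ?_, rfl⟩
  rw [mem_setOf_eq, ← Ultrafilter.map_map, bind_rows hn.2]; exact hn.1

lemma pure_le (n : ℕ) (v : U) : LeRF (pure n) v :=
  le_iff.2 ⟨fun _ => v, fun _ => n, map_pure_iff.2 (univ_mem' (f := (v : Filter ℕ)) fun _ => rfl), rfl⟩

lemma le_map {s : U} {c δ : ℕ → ℕ} (h : {j | δ (c j) = j} ∈ s) : LeRF (s.map c) s :=
  le_iff.2 ⟨fun k => pure (δ k), c, sup (u := s) h fun j hj => congrArg (fun a => pure (c a)) hj,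
    (map_congr (u := s) (f := δ ∘ c) (g := id) h :)⟩

lemma strict {t : U} {f : ℕ → U} {γ : ℕ → ℕ} (h : {n | (f n).map γ = pure n} ∈ t)
    (hf : ∀ n k, f n ≠ pure k) : LtRF t (t.bind f) := by
  refine ⟨le_iff.2 ⟨f, γ, h, rfl⟩, fun h' => ?_⟩
  obtain ⟨g, δ, a, e⟩ := le_iff.1 h'
  have e1 : t.map δ = t.bind f := by conv_lhs => rw [← e, bind_rows a]
  have e2 := fix_of_map (u := t) (f := γ ∘ δ) (by rw [← Ultrafilter.map_map, e1, bind_rows h])
  have e3 : δ '' {n | (γ ∘ δ) n = n} ∈ t.bind f :=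
    e1 ▸ sup (u := t) e2 (subset_preimage_image _ _)
  obtain ⟨n, h1, h2⟩ := t.nonempty_of_mem (inter h (mem_bind.1 e3))
  refine hf n (δ n) (eq_pure.2 (sup (inter (map_pure_iff.1 h1) h2) ?_))
  rintro _ ⟨h3, m, hm, rfl⟩
  exact congrArg δ (hm.symm.trans h3)

lemma dw_cases {t s : U} (ht : DW t) {f : ℕ → U} {γ : ℕ → ℕ} (h : {n | (f n).map γ = pure n} ∈ s)
    (e : s.bind f = t) : (∃ k, s = pure k) ∨ {n | ∃ k, f n = pure k} ∈ s := by
  by_contra hn
  push Not at hn
  have h1 : {n | (f n).map γ = pure n ∧ f n = t} ∉ s := fun h' => by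
    obtain ⟨n, hn'⟩ := s.nonempty_of_mem h'
    exact hn.1 n (eq_pure.2 (sup h' fun m hm => Ultrafilter.pure_injective
      (hm.1.symm.trans (hm.2.trans hn'.2.symm ▸ hn'.1))))
  refine ht.2 _ ((to_countable _).image f) (disc_rows (γ := γ) fun n hn => hn.1.1) ?_
    (e ▸ bind_mem_closure (inter (inter h (compl hn.2)) (compl h1)))
  rintro _ ⟨n, hn, rfl⟩
  exact ⟨fun k hk => hn.1.2 ⟨k, hk⟩, fun h' => hn.2 ⟨hn.1.1, h'⟩⟩

lemma sel (x : ℕ → U) : ∃ c : ℕ → ℕ, ∀ n k, x n = pure k → c n = k := by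
  have : ∀ n, ∃ c, ∀ k, x n = pure k → c = k := fun n => by
    by_cases h : ∃ k, x n = pure k
    · obtain ⟨k, hk⟩ := h
      exact ⟨k, fun j hj => Ultrafilter.pure_injective (hk.symm.trans hj)⟩
    · exact ⟨0, fun k h' => absurd ⟨k, h'⟩ h⟩
  choose c hc using this
  exact ⟨c, hc⟩

lemma le_of_pure {s : U} {f : ℕ → U} {γ : ℕ → ℕ} (h : {n | (f n).map γ = pure n} ∈ s)
    (h' : {n | ∃ k, f n = pure k} ∈ s) : LeRF (s.bind f) s := by
  have : ∀ n, ∃ k, (∃ k, f n = pure k) → f n = pure k := fun n => by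
    by_cases h : ∃ k, f n = pure k
    · obtain ⟨k, hk⟩ := h; exact ⟨k, fun _ => hk⟩
    · exact ⟨0, fun h' => absurd h' h⟩
  choose c hc using this
  rw [bind_pure' (c := c) (sup h' fun n hn => hc n hn)]
  refine le_map (δ := γ) (sup (inter h h') fun n hn => ?_)
  have := hn.1
  rw [mem_setOf_eq, hc n hn.2] at this
  exact Ultrafilter.pure_injective this

lemma dw_min {t s : U} (ht : DW t) (h : LtRF s t) : ∃ k, s = pure k := by
  obtain ⟨f, γ, a, e⟩ := le_iff.1 h.1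
  exact (dw_cases ht a e).resolve_right fun h' => h.2 (e ▸ le_of_pure a h')

lemma closure_eq {w : U} {f : ℕ → U} {γ : ℕ → ℕ} {A : Set ℕ} (h : ∀ n ∈ A, (f n).map γ = pure n)
    (hw : w ∈ closure (f '' A)) : (w.map γ).bind f = w :=
  Ultrafilter.eq_of_le fun S hS => by_contra fun hn => by
    obtain ⟨_, ⟨n, hA, rfl⟩, h1⟩ := mem_closure.1 hw _
      (inter hS (compl (u := w) (S := γ ⁻¹' {n | S ∈ f n}) hn))
    obtain ⟨k, ⟨-, h2⟩, h3⟩ := (f n).nonempty_of_mem (inter h1 (map_pure_iff.1 (h n hA)))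
    exact h2 (by rw [mem_preimage, (h3 : γ k = n)]; exact sup h1 inter_subset_left)

lemma below {u s : U} {f : ℕ → U} {γ : ℕ → ℕ} (hf : ∀ n, DW (f n))
    (hγ : ∀ n, (f n).map γ = pure n) (h : LtRF s (u.bind f)) : LeRF s u := by
  classical
  obtain ⟨g, a1, a2, e⟩ := h.1
  obtain ⟨δ, hδ⟩ := rows_of a1 a2
  have hu : ∀ w : U, {n | (f n).map γ = pure n} ∈ w := fun w => univ_mem' (f := (w : Filter ℕ)) hγ
  have hs : ∀ w : U, {n | (g n).map δ = pure n} ∈ w := fun w => univ_mem' (f := (w : Filter ℕ)) hδ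
  by_cases hA : {i | f i ∈ closure (g '' univ)} ∈ u
  · have e1 : u.bind (fun i => (f i).map δ) = s := by
      rw [← H26.Ultra.map_bind, e, bind_rows (hs s)]
    by_cases hB : {i | ∃ k, (f i).map δ = pure k} ∈ u
    · have : ∀ n, ∃ k, (∃ k, (f n).map δ = pure k) → (f n).map δ = pure k := fun n => by
        by_cases h : ∃ k, (f n).map δ = pure k
        · obtain ⟨k, hk⟩ := h; exact ⟨k, fun _ => hk⟩
        · exact ⟨0, fun h' => absurd h' h⟩
      choose c hc using this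
      have e2 : u.map c = s := (bind_pure' (sup hB fun n hn => hc n hn)).symm.trans e1
      obtain ⟨d, hd'⟩ := sel fun j => (g j).map γ
      have hd : {i | d (c i) = i} ∈ u := sup (inter hA hB) fun i hi => by
        have h1 := closure_eq (fun n _ => hδ n) hi.1
        rw [hc i hi.2] at h1
        exact hd' _ _ ((congrArg (Ultrafilter.map γ) h1).trans (hγ i))
      exact e2 ▸ le_map hd
    · refine absurd (e ▸ le_of_pure (hs s) ?_) h.2
      rw [← e1]
      exact mem_bind.2 (sup (inter hA (compl hB)) fun i hi =>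
        (dw_cases (hf i) (hs _) (closure_eq (fun n _ => hδ n) hi.1)).resolve_left hi.2)
  · have hB : {j | g j ∈ closure (f '' {i | f i ∈ closure (g '' univ)}ᶜ)} ∈ s := by
      by_contra hB
      rcases frolik (bind_mem_closure (f := f) (compl hA)) (e ▸ bind_mem_closure (f := g) (compl hB))
        with ⟨n, hn, h⟩ | ⟨m, hm, h⟩
      · exact hn (closure_mono (image_mono (subset_univ _)) h)
      · exact hm h
    obtain ⟨d, hd'⟩ := sel fun i => (f i).map δ
    refine le_iff.2 ⟨fun j => (g j).map γ, d, sup hB fun j hj => map_pure_iff.2 ?_, ?_⟩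
    · have h1 := closure_eq (fun n _ => hγ n) hj
      have h2 : {k | δ k = j} ∈ ((g j).map γ).bind f := by rw [h1]; exact map_pure_iff.1 (hδ j)
      exact sup (mem_bind.1 h2) fun i hi => hd' _ _ (map_pure_iff.2 hi)
    · rw [← H26.Ultra.map_bind, ← e, bind_rows (hu u)]

lemma rank_le {w : U} {α : Ordinal.{0}} (h : ∀ s, LtRF s w → ∃ h : Acc LtRF s, h.rank < α) :
    ∃ h : Acc LtRF w, h.rank ≤ α := by
  refine ⟨⟨w, fun s hs => (h s hs).1⟩, ?_⟩
  rw [Acc.rank_eq]
  exact Ordinal.iSup_le fun b => Order.succ_le_of_lt (h b.1 b.2).2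

lemma rank_pure (k : ℕ) : ∃ h : Acc LtRF (pure k), h.rank ≤ 0 :=
  rank_le fun s hs => absurd (pure_le k s) hs.2

lemma rank_one {u s : U} (hu : DW u) (h : LeRF s u) : ∃ h : Acc LtRF s, h.rank ≤ 1 :=
  rank_le fun r hr => by
    obtain ⟨k, rfl⟩ := dw_min hu ⟨le_trans' hr.1 h, fun h' => hr.2 (le_trans' h h')⟩
    exact (rank_pure k).imp fun _ h => h.trans_lt one_pos

lemma rank_two {u : U} {f : ℕ → U} {γ : ℕ → ℕ} (hu : DW u) (hf : ∀ n, DW (f n))
    (hγ : ∀ n, (f n).map γ = pure n) : ∃ h : Acc LtRF (u.bind f), h.rank ≤ 2 :=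
  rank_le fun _ hs => (rank_one hu (below hf hγ hs)).imp fun _ h => h.trans_lt one_lt_two

lemma succ_le {s t : U} (h : LtRF s t) (ht : Acc LtRF t) {α : Ordinal.{0}}
    (hs : ∀ h : Acc LtRF s, α ≤ h.rank) : α + 1 ≤ ht.rank :=
  Order.add_one_le_iff.2 ((hs _).trans_lt (ht.rank_lt_of_rel h))

theorem result : level 3 ≠ gen 2 ∧
    ∀ (u : Ultrafilter ℕ) (f : ℕ → Ultrafilter ℕ), DW u → (∀ i, DW (f i)) →
      Function.Injective f → DiscreteTopology (range f) → ∃ α ≤ 2, u.bind f ∈ level α := by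
  refine ⟨fun he => ?_, fun u f hu hf h1 h2 => ?_⟩
  swap
  · obtain ⟨γ, hγ⟩ := rows_of h1 h2
    obtain ⟨h, h'⟩ := rank_two hu hf hγ
    exact ⟨_, h', h, rfl⟩
  obtain ⟨u, -, hu, -, hw, -, -⟩ := Pool.Agent.H26.Kunen.exists_weakP
  have cp : ∀ e r : ℕ → ℕ, (∀ k, r (e k) = k) → DW (u.map e) := fun e r h => by
    have h0 : (u.map e).map r = u := map_congr (u := u) (f := r ∘ e) (g := id)
      (univ_mem' (f := (u : Filter ℕ)) h)
    refine ⟨fun n hn => hu (r n) (by rw [← h0, hn]; rfl), fun D hD _ hD' hc => ?_⟩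
    have inv : ∀ w : U, range e ∈ w → (w.map r).map e = w := fun w hw =>
      map_congr (u := w) (f := e ∘ r) (g := id) (sup hw (by rintro _ ⟨k, rfl⟩; simp [h]))
    refine hw (Ultrafilter.map r '' (D ∩ {w | range e ∈ w}))
      ((hD.mono inter_subset_left).image _) ?_ (mem_closure.2 fun S hS => ?_)
    · rintro _ ⟨w, hw, rfl⟩
      exact ⟨fun n hn => (hD' w hw.1).1 (e n) (by rw [← inv w hw.2, hn]; rfl),
        fun hn => (hD' w hw.1).2 (by rw [← inv w hw.2, hn])⟩
    · obtain ⟨d, h1, h2⟩ := mem_closure.1 hc (r ⁻¹' S ∩ range e) (inter (show S ∈ (u.map e).map r by rw [h0]; exact hS)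
        (univ_mem' (f := (u : Filter ℕ)) fun k => ⟨k, rfl⟩))
      exact ⟨_, ⟨d, ⟨h1, sup h2 inter_subset_right⟩, rfl⟩, sup (u := d) h2 inter_subset_left⟩
  have all : ∀ (w : U) (p : ℕ → Prop), (∀ n, p n) → {n | p n} ∈ w :=
    fun w p h => univ_mem' (f := (w : Filter ℕ)) h
  have g1 : ∀ h : Acc LtRF u, 0 + 1 ≤ h.rank := fun h =>
    succ_le (strict (t := pure 0) (f := fun _ => u) (γ := fun _ => 0)
      (map_pure_iff.2 (all u _ fun _ => rfl)) fun _ => hu) h fun _ => zero_le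
  have two : ∀ e r : ℕ → ℕ, (∀ k, r (e k) = k) → (tens u u).map e ∈ level 2 := fun e r h => by
    have d := fun n => cp (e ∘ Nat.pair n) (fun k => (r k).unpair.2) (by simp [h])
    have ρ : ∀ n, (u.map (e ∘ Nat.pair n)).map (fun k => (r k).unpair.1) = pure n :=
      fun n => map_pure_iff.2 (all u _ (by simp [h]))
    obtain ⟨a, b⟩ := rank_two (cp id id fun _ => rfl) d ρ
    refine ⟨a, le_antisymm b ?_⟩
    have := succ_le (strict (all u _ ρ) fun n => (d n).1) a g1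
    rw [zero_add, one_add_one_eq_two] at this
    exact this
  have sd := sd_of (row_fst (tens u u))
  obtain ⟨a, b⟩ : tens (tens u u) (tens u u) ∈ level 3 := he ▸ ⟨_, _, sd.1, sd.2,
    two id id fun _ => rfl, fun i => two _ (fun k => k.unpair.2) (by simp), rfl⟩
  have fr := fun n => (cp (Nat.pair n) (fun k => k.unpair.2) (by simp)).1
  have l4 : LtRF (tens (tens u u) u) (tens (tens u u) (tens u u)) := by
    have := strict (t := tens (tens u u) u)
      (f := fun k => u.map (Nat.pair k.unpair.1 ∘ Nat.pair k.unpair.2))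
      (γ := fun k => Nat.pair k.unpair.1 k.unpair.2.unpair.1)
      (all _ _ fun n => map_pure_iff.2 (all u _ (by simp)))
      fun n => (cp _ (fun k => k.unpair.2.unpair.2) (by simp)).1
    convert this using 1
    refine Ultrafilter.ext fun S => ?_
    simp only [tens, H26.Ultra.mem_bind, Ultrafilter.mem_map, preimage, mem_setOf_eq, Nat.unpair_pair,
      Function.comp]
  have := succ_le l4 a fun h => succ_le (strict (all _ _ (row_fst u)) fr) h
    fun h => succ_le (strict (all _ _ (row_fst u)) fr) h g1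
  rw [b] at this
  norm_num at this

end Pool.Agent.Results.MP_e112c8_lc.Levels
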